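import Pool.Agent.TH681.Adv.Main

/-!
# How much advice does nondeterministic polynomial time need to contain `coNP`?

`IsNPAdv A a L` says that the language `L` is in nondeterministic polynomial time relative to the
oracle `A` with `a n` bits of advice for the inputs of length `n` (the verifier works in time
polynomial in `n` and may read any bit of the advice). The theorem determines the necessary amount
of advice, up to polynomial factors, relative to a random oracle: `coNP` is contained in `NP` with
`a n` bits of advice if and only if `a n ≥ 2 ^ n / n ^ c` for some `c` and all large `n`.

The upper bound holds for every oracle: divide the inputs of length `n` into groups of polynomial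
size; the advice consists of the number of nonmembers in each of the groups, and to accept an input
guess as many certified nonmembers of its group, other than the input.

The lower bound: Let `L` be the set of the strings outside the range of the function from strings
of length `n - 1` to strings of length `n` given by the oracle `A`. If the strings outside the range
are exactly those with an accepting computation, divide the arguments into more classes than twice
the number of questions of a computation. Then for one of the classes a quarter of all strings of
length `n` are outside the range and have an accepting computation which asks for no value at this
class. If the values at this class are resampled, these strings are still accepted, hence still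
outside the range; this has probability at most `(3 / 4) ^ (2 ^ n / n ^ O(1))`, which is small
enough for a union bound over all advice.
-/

set_option autoImplicit false

namespace Pool.Agent.Results.MP_a77cad_lc.AdviceForCoNP

open Pool.Agent.H620R2.Gauge Pool.Agent.TH681.Adv Filter MeasureTheory
open Pool.Agent.H628R3.RO (randomOracle)

/-- 1. Relative to every oracle `A`, all languages in `coNP` are in `NP` with `a n` bits of advice
if `a n ≥ 2 ^ n / n ^ c` for some `c` and all large `n`.

2. For almost every oracle `A` there is a language in `coNP` relative to `A` which is not in `NP`
relative to `A` with `a n` bits of advice for any other function `a`. -/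
theorem result :
    (∀ (A : Oracle) (a : ℕ → ℕ), (∃ c : ℕ, ∀ᶠ n : ℕ in atTop, 2 ^ n ≤ a n * n ^ c) →
      ∀ L : Set (List Bool), IsCoNP A L → IsNPAdv A a L) ∧
    ∀ᵐ A ∂randomOracle, ∃ L : Set (List Bool), IsCoNP A L ∧ ∀ a : ℕ → ℕ, IsNPAdv A a L →
      ∃ c : ℕ, ∀ᶠ n : ℕ in atTop, 2 ^ n ≤ a n * n ^ c := by
  refine ⟨fun A a ⟨c, hc⟩ L hL => upper A hc L hL, ?_⟩
  filter_upwards [low] with A hA
  exact ⟨_, range_compl_conp A, hA⟩

end Pool.Agent.Results.MP_a77cad_lc.AdviceForCoNP
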