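import Pool.Agent.TH680.NPP.Defs
import Pool.Agent.W900.BC.Neg4
import Pool.Agent.W900.BC.Pos
import Pool.Agent.H591R3.PHG.LangSig
import Pool.Agent.H591R3.PHG.Sig
import Pool.Agent.H620R2.Gauge.U1

/-!
# `coNP` versus `NP/poly` relative to oracles tossed with biased coins: the exact threshold

Bennett and Gill (1981): `P^A ≠ NP^A` for almost every oracle `A`, tossed with fair coins; their
proof also gives `coNP^A ⊄ NP^A/poly`. Here the coins are biased, and the bias is chosen by an
adversary: when the bits of the oracle are revealed one after the other, in the order of the length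
of the strings, then, whatever the bits revealed so far, the next bit has either value with
conditional probability at most `1 / 2 + ε n`, where `n` is the length of the next string. Such a
distribution `μ` is called `ε`-biased. We determine exactly for which functions `ε` the noninclusion
of `coNP` in `NP/poly` holds relative to almost all oracles for all `ε`-biased distributions: if and
only if, for every `c`, there are infinitely many `n` such that `ε m ≤ 1 / n ^ c` for all `m` from
`n` to `n ^ c` (`Small ε`).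

For these `ε`, even the polynomial hierarchy relative to `A` is infinite for almost every `A`, for
every `ε`-biased distribution. For all other `ε` there is an `ε`-biased distribution for which
`P^A = PSPACE^A` for almost every `A`. So the threshold is the same for all statements between
`P^A ≠ PSPACE^A` and the infinity of the polynomial hierarchy relative to `A`; among them are
`P^A ≠ NP^A` and, by a relativized form of Yap's theorem, `coNP^A ⊄ NP^A/poly`.

(The two halves are the theorems `pos_part` and `neg_part` of the library folder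
`Pool/Agent/W900/BC` of the starting repository, which had not been handed in; the theorem of Yap
is derived from the theorem `yap` of `Pool/Agent/W900/IE`.)
-/

set_option autoImplicit false

namespace Pool.Agent.Results.MP_a77cad_lc.BiasedOracles

open MeasureTheory Pool.Agent.NPC Pool.Agent.H620R2.Gauge Pool.Agent.W900.BC
open Pool.Agent.H591R3.PHG (IsSig lang lang_sig)

/-- The language `L` is in `coNP` relative to `A`. -/
def IsCoNP (A : Oracle) (L : Set (List Bool)) : Prop := IsNP A Lᶜ

/-- The language `L` is in `NP/poly` relative to `A`: for some `L'` in `NP` relative to `A`, a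
polynomial `p` and strings `a n` of length at most `p n`, `x` is in `L` if and only if
`⟨x, a |x|⟩` is in `L'`. -/
def IsNPPoly (A : Oracle) (L : Set (List Bool)) : Prop :=
  ∃ (L' : Set (List Bool)) (a : ℕ → List Bool) (p : Polynomial ℕ), IsNP A L' ∧
    (∀ n, (a n).length ≤ p.eval n) ∧ ∀ x, x ∈ L ↔ pairBits x (a x.length) ∈ L'

/-- The polynomial hierarchy relative to `A` is infinite: each of its levels differs from the next
one (level `0` is `P^A`, level `1` is `NP^A`). -/
def InfinitePH (A : Oracle) : Prop := ∀ k, ∃ L, IsSig A (k + 1) L ∧ ¬ IsSig A k L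

/-- A function `V` computed in polynomial time relative to `A` decides a language in `P^A`. -/
theorem isSig_zero {A : Oracle} {L : Set (List Bool)} : IsSig A 0 L ↔ IsP A L :=
  ⟨fun ⟨V, _, hV, h⟩ => ⟨V, hV, h⟩, fun ⟨V, hV, h⟩ => ⟨V, 0, hV, h⟩⟩

theorem isNP_space {A : Oracle} {L : Set (List Bool)} (h : IsNP A L) : IsPSPACE A L := by
  have h1 : IsSig A 1 L := h
  exact h1.isPH.isPSPACE

/-- If the hierarchy is infinite then `coNP` is not contained in `NP/poly`. -/
theorem conp_of_infinite {A : Oracle} (h : InfinitePH A) :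
    ∃ L, IsCoNP A L ∧ ¬ IsNPPoly A L := by
  by_contra hcon
  push Not at hcon
  exact TH680.NPP.finite_of_conp (A := A) (fun L hL => hcon L hL) h

/-- If `coNP` is not contained in `NP/poly` then `P` differs from `PSPACE`. -/
theorem space_of_conp {A : Oracle} (h : ∃ L, IsCoNP A L ∧ ¬ IsNPPoly A L) :
    ∃ L, IsNP A L ∧ ¬ IsP A L := by
  by_contra hcon
  push Not at hcon
  obtain ⟨L, h1, h2⟩ := h
  obtain ⟨V, hV, hL⟩ := hcon _ h1
  apply h2
  have h3 : IsP A L := by
    obtain ⟨V', hV', h'⟩ := (W900.IE.nice_pa A).neg (v := fun x => x ∈ Lᶜ) ⟨V, hV, hL⟩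
    refine ⟨V', hV', fun x => ?_⟩
    rw [← h']
    simp
  have h4 : IsNP A L := by
    have h5 : IsSig A 1 L := (isSig_zero.2 h3).succ
    exact h5
  exact TH680.NPP.na_of_np (R := fun x => x ∈ L) h4

/-- **`coNP` versus `NP/poly` relative to biased random oracles.** Let `ε n ≥ 0` for all `n`.

(1) If `Small ε` then for every probability distribution `μ` of oracles which is `ε`-biased and for
`μ`-almost every oracle `A`, the polynomial hierarchy relative to `A` is infinite, and some language
in `coNP^A` is not in `NP^A/poly`.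

(2) If not `Small ε` then for some probability distribution `μ` of oracles which is `ε`-biased,
`P^A = PSPACE^A` for `μ`-almost every oracle `A`.

(3) The following are equivalent: `Small ε`; for all `ε`-biased probability distributions `μ`,
`coNP^A ⊄ NP^A/poly` for `μ`-almost every oracle `A`; the same with `P^A ≠ NP^A`; the same with
`P^A ≠ PSPACE^A`. -/
theorem result (ε : ℕ → ℝ) (hε : ∀ n, 0 ≤ ε n) :
    (Small ε → ∀ μ : Measure Oracle, IsProbabilityMeasure μ → Biased ε μ →
      ∀ᵐ A ∂μ, InfinitePH A ∧ ∃ L, IsCoNP A L ∧ ¬ IsNPPoly A L) ∧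
    (¬ Small ε → ∃ μ : Measure Oracle, IsProbabilityMeasure μ ∧ Biased ε μ ∧
      ∀ᵐ A ∂μ, ∀ L, IsPSPACE A L ↔ IsP A L) ∧
    ((∀ μ : Measure Oracle, IsProbabilityMeasure μ → Biased ε μ →
      ∀ᵐ A ∂μ, ∃ L, IsCoNP A L ∧ ¬ IsNPPoly A L) ↔ Small ε) ∧
    ((∀ μ : Measure Oracle, IsProbabilityMeasure μ → Biased ε μ →
      ∀ᵐ A ∂μ, ∃ L, IsNP A L ∧ ¬ IsP A L) ↔ Small ε) ∧
    ((∀ μ : Measure Oracle, IsProbabilityMeasure μ → Biased ε μ →
      ∀ᵐ A ∂μ, ∃ L, IsPSPACE A L ∧ ¬ IsP A L) ↔ Small ε) := by
  have hpos : Small ε → ∀ μ : Measure Oracle, IsProbabilityMeasure μ → Biased ε μ →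
      ∀ᵐ A ∂μ, InfinitePH A ∧ ∃ L, IsCoNP A L ∧ ¬ IsNPPoly A L := by
    intro hs μ hμ hb
    filter_upwards [pos_part hs μ hb] with A hA
    have h1 : InfinitePH A := fun k => ⟨lang k A, lang_sig A k, hA k⟩
    exact ⟨h1, conp_of_infinite h1⟩
  have hneg : ¬ Small ε → ∃ μ : Measure Oracle, IsProbabilityMeasure μ ∧ Biased ε μ ∧
      ∀ᵐ A ∂μ, ∀ L, IsPSPACE A L ↔ IsP A L := by
    intro hs
    obtain ⟨μ, h1, h2, h3⟩ := neg_part hε hs
    refine ⟨μ, h1, h2, ?_⟩
    filter_upwards [h3] with A hA L
    exact ⟨hA L, fun h => h.isPSPACE⟩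
  have hcon : (∀ μ : Measure Oracle, IsProbabilityMeasure μ → Biased ε μ →
      ∀ᵐ A ∂μ, ∃ L, IsPSPACE A L ∧ ¬ IsP A L) → Small ε := by
    intro h
    by_contra hs
    obtain ⟨μ, h1, h2, h3⟩ := hneg hs
    have h4 : ∀ᵐ A ∂μ, False := by
      filter_upwards [h3, h μ h1 h2] with A hA hA'
      obtain ⟨L, hL, hL'⟩ := hA'
      exact hL' ((hA L).1 hL)
    rw [ae_iff] at h4
    simp at h4
  have hspace : ∀ {A : Oracle}, (∃ L, IsNP A L ∧ ¬ IsP A L) → ∃ L, IsPSPACE A L ∧ ¬ IsP A L :=
    fun ⟨L, h1, h2⟩ => ⟨L, isNP_space h1, h2⟩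
  refine ⟨hpos, hneg, ⟨fun h => hcon fun μ h1 h2 => ?_, fun hs μ h1 h2 => ?_⟩,
    ⟨fun h => hcon fun μ h1 h2 => ?_, fun hs μ h1 h2 => ?_⟩, ⟨hcon, fun hs μ h1 h2 => ?_⟩⟩
  · filter_upwards [h μ h1 h2] with A hA
    exact hspace (space_of_conp hA)
  · filter_upwards [hpos hs μ h1 h2] with A hA
    exact hA.2
  · filter_upwards [h μ h1 h2] with A hA
    exact hspace hA
  · filter_upwards [hpos hs μ h1 h2] with A hA
    exact space_of_conp hA.2
  · filter_upwards [hpos hs μ h1 h2] with A hA
    exact hspace (space_of_conp hA.2)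

end Pool.Agent.Results.MP_a77cad_lc.BiasedOracles
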