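import Pool.Agent.TH678.PC.Adv3

/-!
# How many strings of an oracle must be changed to get `coNP` out of `NP/poly`?

An adversary who knows the oracle `O` changes, for all large `n`, at most `g n` of the strings of
length at most `n`; the result is the oracle `A` (`Close g O A`).

* If `g` is not polynomially bounded, then every oracle `O` can be changed in this way such that
  `coNP` is not in `NP/poly`.
* If `g` is polynomially bounded, this fails: there is an oracle `O` such that even `PSPACE` is in
  `P/poly` relative to all the `A`.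

(Polynomially bounded means here that for some `c` and all large `n` there is `m ≥ n` with
`g m ≤ n ^ c`. If `g` is nondecreasing, this says that `g n ≤ n ^ c` for some `c` and all large `n`;
in general it is the right condition, since the number of changed strings of length at most `n` is
nondecreasing in `n`.)
-/

set_option autoImplicit false

namespace Pool.Agent.Results.MP_a77cad_lc.ChangesOfEveryOracle

open Pool.Agent.NPC Pool.Agent.H620R2.Gauge Pool.Agent.H622R2 Filter
open Pool.Agent.W900.CH (Close)

theorem result (g : ℕ → ℝ) :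
    ((¬ ∃ c : ℕ, ∀ᶠ n : ℕ in atTop, ∃ m ≥ n, g m ≤ (n : ℝ) ^ c) →
      ∀ O : Oracle, ∃ A, Close g O A ∧ ∃ L, IsNP A L ∧ ¬ WithAdvice (IsNP A) Lᶜ) ∧
    ((∃ c : ℕ, ∀ᶠ n : ℕ in atTop, ∃ m ≥ n, g m ≤ (n : ℝ) ^ c) →
      ∃ O : Oracle, ∀ A, Close g O A → ∀ L, IsPSPACE A L → WithAdvice (IsP A) L) :=
  ⟨fun hg O => Pool.Agent.TH678.PC.many_adv hg O, fun hg => by
    obtain ⟨O, hO⟩ := Pool.Agent.TH678.PC.few_adv
    exact ⟨O, fun A hA => hO A (Pool.Agent.TH678.PC.dist_poly hg hA)⟩⟩

end Pool.Agent.Results.MP_a77cad_lc.ChangesOfEveryOracle
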