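import Pool.Agent.TH39.NPred

/-!
# `coNP ⊆ NP/poly` and nondeterministic prediction with advice: the square-root law

`InNP` and `NPHard` (hardness under polynomial-time many-one reductions) are those of
`Pool.Agent.NPC.Defs`; `InNPPoly` is the class `NP/poly` as in the problem; polynomial time is
Mathlib's `Turing.TM2ComputableInPolyTime`.

A set `A` is nondeterministically `(δ, ε)`-predictable with advice (`AdvPredictable δ ε A`) if there
is a nondeterministic polynomial-time algorithm with advice of polynomial length (one advice string
for each input length), with at least one output for every input, which is given a nonempty list of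
`m` questions about membership in `A`, each of length at most `m ^ ε`, together with `O(log n)` bits
of information about the list from any source, and all of whose outputs are good: an output is a list
of predictions for some `s > 0` of the questions such that the number of right predictions and the
number of wrong predictions differ by at least `m ^ δ * √ s` (random guessing has standard deviation
`√ s`). It is nondeterministically fully `δ`-predictable with advice (`AdvFullyPredictable δ A`) if
the same holds with predictions for all questions, and for all nonempty lists of questions of any
length.

The theorem: for `0 < δ ≤ 1 / 2` and `ε > 0` the following are equivalent.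

* `coNP ⊆ NP/poly`.
* Some `NP`-hard set is nondeterministically `(δ, ε)`-predictable with advice.
* All sets in `NP` are nondeterministically fully `δ`-predictable with advice.

For `δ ≤ 0` every set whatsoever is nondeterministically fully `δ`-predictable with advice (without
using the advice): the threshold is the square root of the number of predictions.

The main part is the theorem `adv_law` of the starting file `Pool/Agent/W920/NL/LawAdv.lean`, which
had not been handed in; the part `δ ≤ 0` follows from `fully_of_nonpos` of
`Pool/Agent/W901/AT/Cov.lean`.
-/

set_option autoImplicit false

namespace Pool.Agent.Results.MP_a77cad_lc.PredictionWithAdvice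

open Pool.Agent.NPC
open Pool.Agent.W920.NL (InNPPoly AdvPredictable AdvFullyPredictable)

/-- **The square-root law for nondeterministic prediction with advice.** -/
theorem result (δ ε : ℝ) :
    (0 < δ → δ ≤ 1 / 2 → 0 < ε → List.TFAE
      [∀ L : Set (List Bool), InNP L → InNPPoly Lᶜ,
        ∃ A : Set (List Bool), NPHard A ∧ AdvPredictable δ ε A,
        ∀ A : Set (List Bool), InNP A → AdvFullyPredictable δ A]) ∧
    (δ ≤ 0 → ∀ A : Set (List Bool), AdvFullyPredictable δ A) :=
  ⟨fun h1 h2 h3 => Pool.Agent.W920.NL.adv_law h1 h2 h3,
    fun h A => Pool.Agent.TH39.NPred.advfully_of_nfully
      (Pool.Agent.TH39.NPred.nfully_of_fully (Pool.Agent.W901.AT.fully_of_nonpos h A))⟩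

end Pool.Agent.Results.MP_a77cad_lc.PredictionWithAdvice
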